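import Pool.Agent.Helper93.KN.St

/-!
# Project KN, module FIN: from the two moments to the theorem
-/

set_option autoImplicit false

noncomputable section

namespace Pool.Agent.Helper93.KN

open Finset ArithmeticFunction
open Pool.Agent.Helper60.GP (IsB JJ II Err)

private theorem nonprime {y : ℝ} (hy : 1 ≤ y) :
    ∑ n ∈ (Icc 1 ⌊y⌋₊).filter (fun n => ¬ n.Prime), Λ n ≤ 2 * √y * Real.log y := by
  have h1 := Chebyshev.psi_sub_theta_eq_sum_not_prime y
  have h2 := Chebyshev.psi_sub_theta_le hy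
  rw [h1] at h2
  have h3 : Icc 1 ⌊y⌋₊ = Ioc 0 ⌊y⌋₊ := by
    ext n
    simp [Nat.succ_le_iff]
  rw [h3]
  exact h2

/-- the residue class -/
private def cls (q a N : ℕ) : Finset ℕ := (Icc 1 N).filter (fun n => n % q = a % q)

/-- the inner sum of the first moment -/
private theorem inner (ω : ℝ → ℝ) (hω : IsB ω) (hsupp : ∀ t, ω t ≠ 0 → 0 < t ∧ t < 1) {x : ℝ}
    (hx : 1 ≤ x) (q a b N K : ℕ) (hq : 1 ≤ q) (hb : 1 ≤ b) (hK : q * b ≤ K) (hKN : 2 * K ≤ N)
    (hm1 : 3 * x + 1 ≤ (N : ℝ) / 2 * ((q * b : ℕ) : ℝ))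
    (hm2 : (((q * b) * (q * b) : ℕ) : ℝ) ≤ x) :
    ∑ n ∈ (II x).filter (fun n : ℕ =>
      ((q ^ 2 * b : ℕ) : ℤ) ∣ (n : ℤ) - ((a * (q * b) : ℕ) - 1 : ℤ)), Λ n * ω (Real.log (n / x)) ≤
    Real.log (3 * x) * (((cls q a N).filter (fun n => q * b ∈ ks K n)).card : ℝ) +
      2 * √(3 * x) * Real.log (3 * x) := by
  classical
  have hx0 : 0 < x := by linarith
  have h3x : 1 ≤ 3 * x := by linarith
  have hlog : 0 ≤ Real.log (3 * x) := Real.log_nonneg h3x
  set k : ℕ := q * b with hk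
  have hk0 : 0 < k := Nat.mul_pos hq hb
  set S := (II x).filter (fun n : ℕ =>
      ((q ^ 2 * b : ℕ) : ℤ) ∣ (n : ℤ) - ((a * k : ℕ) - 1 : ℤ)) with hS
  have hSI : ∀ n ∈ S, n ∈ Icc 1 ⌊3 * x⌋₊ := fun n hn => (mem_filter.1 hn).1
  -- the quotient
  have hdiv : ∀ n ∈ S, ∃ m : ℕ, n + 1 = k * m ∧ m % q = a % q := by
    intro n hn
    obtain ⟨t, ht⟩ := (mem_filter.1 hn).2
    have h1 : (n : ℤ) + 1 = k * (a + q * t) := by
      have h2 : (n : ℤ) = (a * k : ℕ) - 1 + (q ^ 2 * b : ℕ) * t := by linarith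
      rw [h2, hk]
      push_cast
      ring
    have h3 : (0 : ℤ) ≤ a + q * t := by
      by_contra hcon
      rw [not_le] at hcon
      have h4 : (k : ℤ) * (a + q * t) < 0 := mul_neg_of_pos_of_neg (by exact_mod_cast hk0) hcon
      rw [← h1] at h4
      have h5 : (0 : ℤ) ≤ (n : ℤ) := Int.natCast_nonneg n
      linarith
    refine ⟨((a : ℤ) + q * t).toNat, ?_, ?_⟩
    · have h4 : ((n + 1 : ℕ) : ℤ) = ((k * ((a : ℤ) + q * t).toNat : ℕ) : ℤ) := by
        push_cast
        rw [Int.toNat_of_nonneg h3, ← h1]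
      exact_mod_cast h4
    · have h4 : ((((a : ℤ) + q * t).toNat : ℕ) : ℤ) % (q : ℤ) = ((a : ℕ) : ℤ) % (q : ℤ) := by
        rw [Int.toNat_of_nonneg h3]
        simp
      exact_mod_cast h4
  rw [← Finset.sum_filter_add_sum_filter_not S (fun n => n.Prime)]
  refine add_le_add ?_ ?_
  · -- primes
    set T := (S.filter (fun n => n.Prime)).filter (fun n : ℕ => ω (Real.log (n / x)) ≠ 0) with hT
    have h1 : ∑ n ∈ S.filter (fun n => n.Prime), Λ n * ω (Real.log (n / x)) =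
        ∑ n ∈ T, Λ n * ω (Real.log (n / x)) := by
      rw [hT]
      symm
      refine Finset.sum_filter_of_ne ?_
      intro n _ hne h0
      exact hne (by rw [h0, mul_zero])
    have h2 : ∀ n ∈ T, Λ n * ω (Real.log (n / x)) ≤ Real.log (3 * x) := by
      intro n hn
      have hn' := mem_Icc.1 (hSI n (mem_filter.1 (mem_filter.1 hn).1).1)
      have hn3 : (n : ℝ) ≤ 3 * x := (Nat.le_floor_iff (by linarith)).1 hn'.2
      have hn0 : (0 : ℝ) < n := by exact_mod_cast hn'.1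
      have hL : Λ n ≤ Real.log (3 * x) := vonMangoldt_le_log.trans (Real.log_le_log hn0 hn3)
      have hw1 : ω (Real.log (n / x)) ≤ 1 := (hω.le_half _).trans (by norm_num)
      calc Λ n * ω (Real.log (n / x)) ≤ Real.log (3 * x) * 1 :=
            mul_le_mul hL hw1 (hω.nonneg _) hlog
        _ = _ := mul_one _
    have h3 : T.card ≤ ((cls q a N).filter (fun n => k ∈ ks K n)).card := by
      refine Finset.card_le_card_of_injOn (fun n => k + (n + 1) / k) ?_ ?_
      · intro n hn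
        have hnT : n ∈ T := hn
        have hn1 := mem_filter.1 hnT
        have hn2 := mem_filter.1 hn1.1
        have hn4 := mem_Icc.1 (hSI n hn2.1)
        obtain ⟨m, hm, hmq⟩ := hdiv n hn2.1
        have hmm : (n + 1) / k = m := by rw [hm]; exact Nat.mul_div_cancel_left m hk0
        refine Finset.mem_coe.2 ?_
        show k + (n + 1) / k ∈ _
        rw [hmm]
        have hkR : (0 : ℝ) < k := by exact_mod_cast hk0
        -- upper bound for m
        have hn3 : (n : ℝ) ≤ 3 * x := (Nat.le_floor_iff (by linarith)).1 hn4.2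
        have hmR : (n : ℝ) + 1 = k * m := by exact_mod_cast hm
        have hmN : (m : ℝ) ≤ N / 2 := by
          have h5 : (k : ℝ) * m ≤ k * ((N : ℝ) / 2) := by
            rw [← hmR]
            linarith
          exact le_of_mul_le_mul_left h5 hkR
        have hmN' : 2 * m ≤ N := by
          have h5 : ((2 * m : ℕ) : ℝ) ≤ N := by push_cast; linarith
          exact_mod_cast h5
        -- lower bound for m
        have hnx : x < n := by
          have h5 := (hsupp _ hn1.2).1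
          have h6 : (0 : ℝ) < n := by exact_mod_cast hn4.1
          by_contra hcon
          rw [not_lt] at hcon
          have h7 : (n : ℝ) / x ≤ 1 := by rw [div_le_one hx0]; exact hcon
          have := Real.log_nonpos (by positivity) h7
          linarith
        have hkm : k ≤ m := by
          by_contra hcon
          rw [not_le] at hcon
          have h5 : k * m ≤ k * k := Nat.mul_le_mul_left k hcon.le
          have h6 : ((k * m : ℕ) : ℝ) ≤ ((k * k : ℕ) : ℝ) := by exact_mod_cast h5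
          rw [← hm] at h6
          push_cast at h6 hm2
          linarith
        rw [mem_filter]
        refine ⟨?_, ?_⟩
        · unfold cls
          rw [mem_filter, mem_Icc]
          refine ⟨⟨by omega, by omega⟩, ?_⟩
          rw [Nat.add_mod, hmq, hk, Nat.mul_mod_right]
          simp
        · unfold ks
          rw [mem_filter, mem_Icc]
          refine ⟨⟨hk0, hK⟩, by omega, ?_⟩
          have h8 : k + m - k = m := by omega
          rw [h8, ← hm]
          simpa using hn2.2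
      · intro n hn n' hn' hnn
        have hn1 : n ∈ T := hn
        have hn1' : n' ∈ T := hn'
        obtain ⟨m, hm, _⟩ := hdiv n (mem_filter.1 (mem_filter.1 hn1).1).1
        obtain ⟨m', hm', _⟩ := hdiv n' (mem_filter.1 (mem_filter.1 hn1').1).1
        have hmm : (n + 1) / k = m := by rw [hm]; exact Nat.mul_div_cancel_left m hk0
        have hmm' : (n' + 1) / k = m' := by rw [hm']; exact Nat.mul_div_cancel_left m' hk0
        have hnn' : k + (n + 1) / k = k + (n' + 1) / k := hnn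
        rw [hmm, hmm'] at hnn'
        have h9 : m = m' := by omega
        rw [h9] at hm
        omega
    rw [h1]
    calc ∑ n ∈ T, Λ n * ω (Real.log (n / x)) ≤ ∑ _n ∈ T, Real.log (3 * x) :=
          Finset.sum_le_sum h2
      _ = Real.log (3 * x) * T.card := by rw [Finset.sum_const, nsmul_eq_mul]; ring
      _ ≤ _ := mul_le_mul_of_nonneg_left (by exact_mod_cast h3) hlog
  · -- prime powers
    have h1 : ∑ n ∈ S.filter (fun n => ¬ n.Prime), Λ n * ω (Real.log (n / x)) ≤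
        ∑ n ∈ (Icc 1 ⌊3 * x⌋₊).filter (fun n => ¬ n.Prime), Λ n := by
      calc ∑ n ∈ S.filter (fun n => ¬ n.Prime), Λ n * ω (Real.log (n / x))
          ≤ ∑ n ∈ S.filter (fun n => ¬ n.Prime), Λ n := by
            refine Finset.sum_le_sum fun n _ => ?_
            have hw1 : ω (Real.log (n / x)) ≤ 1 := (hω.le_half _).trans (by norm_num)
            calc Λ n * ω (Real.log (n / x)) ≤ Λ n * 1 :=
                  mul_le_mul_of_nonneg_left hw1 vonMangoldt_nonneg
              _ = Λ n := mul_one _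
        _ ≤ _ := by
            refine Finset.sum_le_sum_of_subset_of_nonneg ?_ fun n _ _ => vonMangoldt_nonneg
            intro n hn
            rw [mem_filter] at hn ⊢
            exact ⟨hSI n hn.1, hn.2⟩
    exact h1.trans (nonprime h3x)

/-- interchange of the summations -/
private theorem swap (q a N K B : ℕ) (hq : 1 ≤ q) :
    ∑ b ∈ Ioc B (2 * B), ((cls q a N).filter (fun n => q * b ∈ ks K n)).card ≤
      ∑ n ∈ cls q a N, (ks K n).card := by
  classical
  simp_rw [Finset.card_filter]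
  rw [Finset.sum_comm]
  refine Finset.sum_le_sum fun n _ => ?_
  rw [← Finset.card_filter]
  refine Finset.card_le_card_of_injOn (fun b => q * b) ?_ ?_
  · intro b hb
    exact Finset.mem_coe.2 (mem_filter.1 (Finset.mem_coe.1 hb)).2
  · intro b _ b' _ hbb
    exact Nat.eq_of_mul_eq_mul_left hq hbb

/-- the second moment -/
private theorem second (hP : StPair) (hA : StAvg) : ∃ C : ℝ, 0 < C ∧ ∀ N K : ℕ, 2 ≤ N → 1 ≤ K →
    ∑ n ∈ Icc 1 N, ((ks K n).card : ℝ) ^ 2 ≤
      C * (N / Real.log N * K + N / Real.log N ^ 2 * K ^ 2) := by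
  classical
  obtain ⟨C₁, hC₁, hP⟩ := hP
  obtain ⟨C₂, hC₂, hA⟩ := hA
  refine ⟨C₁ * C₂, by positivity, fun N K hN hK => ?_⟩
  have hNR : (2 : ℝ) ≤ N := by exact_mod_cast hN
  have hlog : 0 < Real.log N := Real.log_pos (by linarith)
  set P : ℕ → ℕ → Prop := fun n k => (k * (n - k) - 1).Prime with hPd
  have h1 : ∀ n, (ks K n).card ≤ ((Icc 1 K).filter (fun k => P n k)).card := by
    intro n
    refine Finset.card_le_card ?_
    intro k hk
    unfold ks at hk
    rw [mem_filter] at hk ⊢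
    exact ⟨hk.1, hk.2.2⟩
  have h2 : ∀ n, ((Icc 1 K).filter (fun k => P n k)).card ^ 2 =
      ∑ v ∈ Icc 1 K ×ˢ Icc 1 K, if P n v.1 ∧ P n v.2 then 1 else 0 := by
    intro n
    rw [← Finset.card_filter, pow_two, ← Finset.card_product]
    congr 1
    ext v
    simp only [mem_filter, mem_product]
    tauto
  have h3 : ∑ n ∈ Icc 1 N, (ks K n).card ^ 2 ≤
      ∑ v ∈ Icc 1 K ×ˢ Icc 1 K, ((Icc 1 N).filter (fun n => P n v.1 ∧ P n v.2)).card := by
    calc ∑ n ∈ Icc 1 N, (ks K n).card ^ 2 ≤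
          ∑ n ∈ Icc 1 N, ((Icc 1 K).filter (fun k => P n k)).card ^ 2 :=
          Finset.sum_le_sum fun n _ => Nat.pow_le_pow_left (h1 n) 2
      _ = ∑ n ∈ Icc 1 N, ∑ v ∈ Icc 1 K ×ˢ Icc 1 K, (if P n v.1 ∧ P n v.2 then 1 else 0) :=
          Finset.sum_congr rfl fun n _ => h2 n
      _ = _ := by
          rw [Finset.sum_comm]
          refine Finset.sum_congr rfl fun v _ => ?_
          rw [Finset.card_filter]
  have h4 : ∑ n ∈ Icc 1 N, ((ks K n).card : ℝ) ^ 2 ≤
      ∑ v ∈ Icc 1 K ×ˢ Icc 1 K, (((Icc 1 N).filter (fun n => P n v.1 ∧ P n v.2)).card : ℝ) := by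
    exact_mod_cast h3
  refine h4.trans ?_
  rw [← Finset.sum_filter_add_sum_filter_not (Icc 1 K ×ˢ Icc 1 K)
    (fun v : ℕ × ℕ => ¬ v.1 ≠ v.2)]
  have hd : ∑ v ∈ (Icc 1 K ×ˢ Icc 1 K).filter (fun v : ℕ × ℕ => ¬ v.1 ≠ v.2),
      (((Icc 1 N).filter (fun n => P n v.1 ∧ P n v.2)).card : ℝ) ≤
      C₁ * C₂ * (N / Real.log N * K) := by
    have e1 : ∑ v ∈ (Icc 1 K ×ˢ Icc 1 K).filter (fun v : ℕ × ℕ => ¬ v.1 ≠ v.2),
      (((Icc 1 N).filter (fun n => P n v.1 ∧ P n v.2)).card : ℝ) ≤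
        ∑ k ∈ Icc 1 K, (((Icc 1 N).filter (fun n => P n k)).card : ℝ) := by
      have e2 : (Icc 1 K ×ˢ Icc 1 K).filter (fun v : ℕ × ℕ => ¬ v.1 ≠ v.2) =
          (Icc 1 K).image (fun k => (k, k)) := by
        ext v
        obtain ⟨v1, v2⟩ := v
        simp only [mem_filter, mem_product, mem_image, not_not, ne_eq, Prod.mk.injEq]
        constructor
        · rintro ⟨⟨h5, _⟩, h6⟩
          exact ⟨v1, h5, rfl, h6⟩
        · rintro ⟨k, h5, rfl, rfl⟩
          exact ⟨⟨h5, h5⟩, rfl⟩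
      rw [e2, Finset.sum_image (by
        intro k _ k' _ h
        exact (Prod.mk.inj h).1)]
      refine Finset.sum_le_sum fun k _ => ?_
      exact_mod_cast Finset.card_le_card (by
        intro n hn
        rw [mem_filter] at hn ⊢
        exact ⟨hn.1, hn.2.1⟩)
    refine e1.trans ?_
    calc ∑ k ∈ Icc 1 K, (((Icc 1 N).filter (fun n => P n k)).card : ℝ) ≤
          ∑ k ∈ Icc 1 K, C₁ * (N / Real.log N) * ff k :=
          Finset.sum_le_sum fun k hk => (hP N k k hN (mem_Icc.1 hk).1 (mem_Icc.1 hk).1).1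
      _ = C₁ * (N / Real.log N) * ∑ k ∈ Icc 1 K, ff k := by rw [Finset.mul_sum]
      _ ≤ C₁ * (N / Real.log N) * (C₂ * K) :=
          mul_le_mul_of_nonneg_left (hA K hK).1 (by positivity)
      _ = _ := by ring
  have ho : ∑ v ∈ (Icc 1 K ×ˢ Icc 1 K).filter (fun v : ℕ × ℕ => ¬ ¬ v.1 ≠ v.2),
      (((Icc 1 N).filter (fun n => P n v.1 ∧ P n v.2)).card : ℝ) ≤
      C₁ * C₂ * (N / Real.log N ^ 2 * K ^ 2) := by
    have e2 : (Icc 1 K ×ˢ Icc 1 K).filter (fun v : ℕ × ℕ => ¬ ¬ v.1 ≠ v.2) =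
        (Icc 1 K ×ˢ Icc 1 K).filter (fun v : ℕ × ℕ => v.1 ≠ v.2) := by
      ext v
      simp only [mem_filter, not_not, ne_eq]
    rw [e2]
    calc ∑ v ∈ (Icc 1 K ×ˢ Icc 1 K).filter (fun v : ℕ × ℕ => v.1 ≠ v.2),
          (((Icc 1 N).filter (fun n => P n v.1 ∧ P n v.2)).card : ℝ) ≤
          ∑ v ∈ (Icc 1 K ×ˢ Icc 1 K).filter (fun v : ℕ × ℕ => v.1 ≠ v.2),
            C₁ * (N / Real.log N ^ 2) * ff (EE v.1 v.2) := by
          refine Finset.sum_le_sum fun v hv => ?_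
          rw [mem_filter, mem_product] at hv
          exact (hP N v.1 v.2 hN (mem_Icc.1 hv.1.1).1 (mem_Icc.1 hv.1.2).1).2 hv.2
      _ = C₁ * (N / Real.log N ^ 2) *
          ∑ v ∈ (Icc 1 K ×ˢ Icc 1 K).filter (fun v : ℕ × ℕ => v.1 ≠ v.2), ff (EE v.1 v.2) := by
          rw [Finset.mul_sum]
      _ ≤ C₁ * (N / Real.log N ^ 2) * (C₂ * K ^ 2) :=
          mul_le_mul_of_nonneg_left (hA K hK).2 (by positivity)
      _ = _ := by ring
  calc _ ≤ C₁ * C₂ * (N / Real.log N * K) + C₁ * C₂ * (N / Real.log N ^ 2 * K ^ 2) :=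
        add_le_add hd ho
    _ = _ := by ring

/-- Paley-Zygmund -/
private theorem pz (S : Finset ℕ) (F : ℕ → ℝ) (A M Q : ℝ) (hA : 0 < A)
    (hS : (S.card : ℝ) ≤ A) (hM0 : 0 ≤ M) (hM : M ≤ ∑ a ∈ S, F a)
    (hQ : ∑ a ∈ S, F a ^ 2 ≤ Q) :
    M ^ 2 / 4 ≤ ((S.filter (fun a => M / (2 * A) ≤ F a)).card : ℝ) * Q := by
  classical
  set G := S.filter (fun a => M / (2 * A) ≤ F a) with hG
  have h1 : ∑ a ∈ S.filter (fun a => ¬ M / (2 * A) ≤ F a), F a ≤ M / 2 := by
    calc ∑ a ∈ S.filter (fun a => ¬ M / (2 * A) ≤ F a), F a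
        ≤ ∑ _a ∈ S.filter (fun a => ¬ M / (2 * A) ≤ F a), M / (2 * A) :=
          Finset.sum_le_sum fun a ha => (not_le.1 (mem_filter.1 ha).2).le
      _ = ((S.filter (fun a => ¬ M / (2 * A) ≤ F a)).card : ℝ) * (M / (2 * A)) := by
          rw [Finset.sum_const, nsmul_eq_mul]
      _ ≤ A * (M / (2 * A)) := by
          refine mul_le_mul_of_nonneg_right ?_ (by positivity)
          refine le_trans ?_ hS
          exact_mod_cast Finset.card_le_card (Finset.filter_subset _ _)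
      _ = M / 2 := by field_simp
  have h2 : M / 2 ≤ ∑ a ∈ G, F a := by
    have h3 := Finset.sum_filter_add_sum_filter_not S (fun a => M / (2 * A) ≤ F a) F
    rw [← h3] at hM
    rw [hG]
    linarith
  have h3 : (∑ a ∈ G, F a) ^ 2 ≤ (G.card : ℝ) * ∑ a ∈ G, F a ^ 2 :=
    sq_sum_le_card_mul_sum_sq
  have h4 : ∑ a ∈ G, F a ^ 2 ≤ Q := by
    refine le_trans ?_ hQ
    exact Finset.sum_le_sum_of_subset_of_nonneg (Finset.filter_subset _ _)
      fun a _ _ => sq_nonneg _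
  calc M ^ 2 / 4 = (M / 2) ^ 2 := by ring
    _ ≤ (∑ a ∈ G, F a) ^ 2 := pow_le_pow_left₀ (by positivity) h2 2
    _ ≤ (G.card : ℝ) * ∑ a ∈ G, F a ^ 2 := h3
    _ ≤ (G.card : ℝ) * Q := mul_le_mul_of_nonneg_left h4 (Nat.cast_nonneg _)

/-- the part with fixed `N` and `K` -/
private theorem core (ω : ℝ → ℝ) (hω : IsB ω) (hsupp : ∀ t, ω t ≠ 0 → 0 < t ∧ t < 1)
    {q a N K B : ℕ} {c₁ C₃ β : ℝ} (hq : 1 ≤ q) (hβ2 : β < 1 / 2) (hc₁ : 0 < c₁) (hC₃ : 0 < C₃)
    (hS : ∑ n ∈ Icc 1 N, ((ks K n).card : ℝ) ^ 2 ≤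
      C₃ * (N / Real.log N * K + N / Real.log N ^ 2 * K ^ 2))
    (hF : c₁ * (N * B / 8 : ℝ) ≤ ∑ b ∈ Ioc B (2 * B), ∑ n ∈ (II (N * B / 8 : ℝ)).filter
      (fun n : ℕ => ((q ^ 2 * b : ℕ) : ℤ) ∣ (n : ℤ) - ((a * (q * b) : ℕ) - 1 : ℤ)),
        Λ n * ω (Real.log (n / (N * B / 8 : ℝ))))
    (hB1 : 1 ≤ B) (hBK : 2 * q * B ≤ K) (hKB : (K : ℝ) ≤ 4 * q * B)
    (hKlog : Real.log N ≤ K) (hN8 : 8 ≤ N) (hKN : 16 * q * K ≤ N)
    (hBx : (B : ℝ) ≤ (N * B / 8 : ℝ) ^ β)
    (hE : 8 * √3 * Real.log (N * B / 8 : ℝ) ≤ c₁ * (N * B / 8 : ℝ) ^ (1 / 2 - β))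
    (hN3 : 3 ≤ (N * B / 8 : ℝ)) :
    min (c₁ / (256 * q)) ((c₁ / (128 * q)) ^ 2 / (8 * C₃)) * N ≤
      (((Icc 1 N).filter (fun n : ℕ => n % q = a % q ∧
        min (c₁ / (256 * q)) ((c₁ / (128 * q)) ^ 2 / (8 * C₃)) * K / Real.log N ≤
          ((ks K n).card : ℝ))).card : ℝ) := by
  classical
  set x : ℝ := (N * B / 8 : ℝ) with hxd
  have hx0 : 0 < x := by linarith
  have hx1 : 1 ≤ x := by linarith
  have hqR : (1 : ℝ) ≤ q := by exact_mod_cast hq
  have hBR : (1 : ℝ) ≤ B := by exact_mod_cast hB1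
  have hNR : (8 : ℝ) ≤ N := by exact_mod_cast hN8
  have hKNR : 16 * (q : ℝ) * K ≤ N := by exact_mod_cast hKN
  have hBKR : 2 * (q : ℝ) * B ≤ K := by exact_mod_cast hBK
  have hN0 : (0 : ℝ) < N := by linarith
  have hlogN : 0 < Real.log N := Real.log_pos (by linarith)
  have hK0 : 0 < (K : ℝ) := by
    have : 0 < 2 * (q : ℝ) * B := by positivity
    linarith
  have hBN : (B : ℝ) ≤ N / 16 := by
    have h1 : (B : ℝ) ≤ K := by
      calc (B : ℝ) = 1 * B := (one_mul _).symm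
        _ ≤ 2 * (q : ℝ) * B := mul_le_mul_of_nonneg_right (by linarith) (by linarith)
        _ ≤ K := hBKR
    have h2 : (16 : ℝ) * K ≤ 16 * (q : ℝ) * K := by
      refine mul_le_mul_of_nonneg_right ?_ hK0.le
      linarith
    linarith
  have hlog3 : Real.log (3 * x) ≤ 2 * Real.log N := by
    have h1 : 3 * x ≤ (N : ℝ) ^ 2 := by
      rw [hxd, pow_two]
      have h2 : (N : ℝ) * B ≤ N * (N / 16) := mul_le_mul_of_nonneg_left hBN hN0.le
      have h3 : 0 < (N : ℝ) * N := by positivity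
      linarith
    have h2 := Real.log_le_log (by positivity) h1
    rwa [Real.log_pow, Nat.cast_ofNat] at h2
  have hlog3' : Real.log (3 * x) ≤ 2 * Real.log x := by
    rw [Real.log_mul (by norm_num) hx0.ne']
    have : Real.log 3 ≤ Real.log x := Real.log_le_log (by norm_num) hN3
    linarith
  have hlog30 : 0 < Real.log (3 * x) := Real.log_pos (by linarith)
  -- first moment
  have h1 : c₁ * x ≤ ∑ b ∈ Ioc B (2 * B), (Real.log (3 * x) *
      (((cls q a N).filter (fun n => q * b ∈ ks K n)).card : ℝ) +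
      2 * √(3 * x) * Real.log (3 * x)) := by
    refine hF.trans (Finset.sum_le_sum fun b hb => ?_)
    have hbB := mem_Ioc.1 hb
    have hbR : (B : ℝ) + 1 ≤ b := by exact_mod_cast hbB.1
    have hb2R : (b : ℝ) ≤ 2 * B := by exact_mod_cast hbB.2
    have hqb : q * b ≤ 2 * q * B := by
      calc q * b ≤ q * (2 * B) := Nat.mul_le_mul_left q hbB.2
        _ = 2 * q * B := by ring
    have hqbR : ((q * b : ℕ) : ℝ) ≤ 2 * q * B := by exact_mod_cast hqb
    refine inner ω hω hsupp hx1 q a b N K hq (by omega) (hqb.trans hBK) ?_ ?_ ?_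
    · have h2 : 2 * K ≤ 16 * q * K := by
        refine Nat.mul_le_mul_right K ?_
        omega
      exact h2.trans hKN
    · push_cast
      have h2 : (B : ℝ) + 1 ≤ q * b := by
        calc (B : ℝ) + 1 ≤ b := hbR
          _ = 1 * b := (one_mul _).symm
          _ ≤ q * b := mul_le_mul_of_nonneg_right hqR (by linarith)
      have h3 : (N : ℝ) / 2 * (B + 1) ≤ N / 2 * (q * b) :=
        mul_le_mul_of_nonneg_left h2 (by positivity)
      refine le_trans ?_ h3
      rw [hxd]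
      have h4 : 0 ≤ (N : ℝ) * B := by positivity
      linarith
    · push_cast
      push_cast at hqbR
      have h2 : (q : ℝ) * b * (q * b) ≤ K * (2 * q * B) := by
        refine mul_le_mul (hqbR.trans hBKR) hqbR (by positivity) hK0.le
      refine h2.trans ?_
      rw [hxd]
      have h3 : 16 * (q : ℝ) * K * B ≤ N * B := mul_le_mul_of_nonneg_right hKNR (by linarith)
      linarith
  rw [Finset.sum_add_distrib, ← Finset.mul_sum, Finset.sum_const, nsmul_eq_mul, Nat.card_Ioc] at h1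
  have h2B : 2 * B - B = B := by omega
  rw [h2B] at h1
  have hsw : ∑ b ∈ Ioc B (2 * B), (((cls q a N).filter (fun n => q * b ∈ ks K n)).card : ℝ) ≤
      ∑ n ∈ cls q a N, ((ks K n).card : ℝ) := by
    exact_mod_cast swap q a N K B hq
  set SF : ℝ := ∑ n ∈ cls q a N, ((ks K n).card : ℝ) with hSF
  have hSF0 : 0 ≤ SF := Finset.sum_nonneg fun _ _ => Nat.cast_nonneg _
  have hEr : (B : ℝ) * (2 * √(3 * x) * Real.log (3 * x)) ≤ c₁ / 2 * x := by
    have e1 : √(3 * x) = √3 * x ^ ((1 : ℝ) / 2) := by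
      rw [← Real.sqrt_eq_rpow, Real.sqrt_mul (by norm_num)]
    have e3 : x ^ β * x ^ ((1 : ℝ) / 2) * x ^ (1 / 2 - β) = x := by
      rw [← Real.rpow_add hx0, ← Real.rpow_add hx0]
      rw [show β + 1 / 2 + (1 / 2 - β) = 1 by ring, Real.rpow_one]
    have e4 : 0 < x ^ β * x ^ ((1 : ℝ) / 2) := by positivity
    calc (B : ℝ) * (2 * √(3 * x) * Real.log (3 * x))
        ≤ x ^ β * (2 * (√3 * x ^ ((1 : ℝ) / 2)) * (2 * Real.log x)) := by
          refine mul_le_mul hBx ?_ (by positivity) (by positivity)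
          rw [e1]
          exact mul_le_mul_of_nonneg_left hlog3' (by positivity)
      _ = 1 / 2 * (x ^ β * x ^ ((1 : ℝ) / 2)) * (8 * √3 * Real.log x) := by ring
      _ ≤ 1 / 2 * (x ^ β * x ^ ((1 : ℝ) / 2)) * (c₁ * x ^ (1 / 2 - β)) :=
          mul_le_mul_of_nonneg_left hE (by positivity)
      _ = c₁ / 2 * (x ^ β * x ^ ((1 : ℝ) / 2) * x ^ (1 / 2 - β)) := by ring
      _ = c₁ / 2 * x := by rw [e3]
  set c₂ : ℝ := c₁ / (128 * q) with hc₂
  have hc₂0 : 0 < c₂ := by positivity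
  set M : ℝ := c₂ * N * K / Real.log N with hM
  have hM0 : 0 < M := by positivity
  have hMSF : M ≤ SF := by
    have e1 : c₁ / 2 * x ≤ 2 * Real.log N * SF := by
      have e2 : Real.log (3 * x) * ∑ b ∈ Ioc B (2 * B),
          (((cls q a N).filter (fun n => q * b ∈ ks K n)).card : ℝ) ≤ 2 * Real.log N * SF :=
        mul_le_mul hlog3 hsw (Finset.sum_nonneg fun _ _ => Nat.cast_nonneg _) (by positivity)
      linarith
    have e3 : 2 * Real.log N * M ≤ c₁ / 2 * x := by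
      rw [hM, hxd]
      have e4 : 2 * Real.log N * (c₂ * N * K / Real.log N) = 2 * c₂ * N * K := by
        field_simp
      rw [e4]
      calc 2 * c₂ * N * K ≤ 2 * c₂ * N * (4 * q * B) :=
            mul_le_mul_of_nonneg_left hKB (by positivity)
        _ = c₁ / 2 * (N * B / 8) := by
            rw [hc₂]
            field_simp
            ring
    exact le_of_mul_le_mul_left (e3.trans e1) (by positivity)
  -- second moment
  set Q : ℝ := 2 * C₃ * N * K ^ 2 / Real.log N ^ 2 with hQ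
  have hQ0 : 0 < Q := by positivity
  have hSQ : ∑ n ∈ cls q a N, ((ks K n).card : ℝ) ^ 2 ≤ Q := by
    have e1 : ∑ n ∈ cls q a N, ((ks K n).card : ℝ) ^ 2 ≤ ∑ n ∈ Icc 1 N, ((ks K n).card : ℝ) ^ 2 :=
      Finset.sum_le_sum_of_subset_of_nonneg (Finset.filter_subset _ _) fun _ _ _ => sq_nonneg _
    refine e1.trans (hS.trans ?_)
    have e2 : (N : ℝ) / Real.log N * K ≤ N / Real.log N ^ 2 * K ^ 2 := by
      have e3 : (N : ℝ) / Real.log N * K = N / Real.log N ^ 2 * K * Real.log N := by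
        field_simp
      rw [e3, pow_two (K : ℝ), ← mul_assoc]
      exact mul_le_mul_of_nonneg_left hKlog (by positivity)
    calc C₃ * (N / Real.log N * K + N / Real.log N ^ 2 * K ^ 2) ≤
          C₃ * (N / Real.log N ^ 2 * K ^ 2 + N / Real.log N ^ 2 * K ^ 2) := by
          refine mul_le_mul_of_nonneg_left ?_ hC₃.le
          linarith
      _ = Q := by rw [hQ]; ring
  have hcard : ((cls q a N).card : ℝ) ≤ N := by
    have h2 : (cls q a N).card ≤ (Icc 1 N).card := Finset.card_le_card (Finset.filter_subset _ _)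
    rw [Nat.card_Icc] at h2
    exact_mod_cast (by omega : (cls q a N).card ≤ N)
  have hpz := pz (cls q a N) (fun n => ((ks K n).card : ℝ)) N M Q hN0 hcard hM0.le hMSF hSQ
  set G := (cls q a N).filter (fun n => M / (2 * N) ≤ ((ks K n).card : ℝ)) with hG
  set c : ℝ := min (c₁ / (256 * q)) (c₂ ^ 2 / (8 * C₃)) with hc
  have hGN : c * N ≤ (G.card : ℝ) := by
    have e1 : M ^ 2 / 4 / Q ≤ (G.card : ℝ) := by
      rw [div_le_iff₀ hQ0]; exact hpz
    refine le_trans ?_ e1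
    have e2 : M ^ 2 / 4 / Q = c₂ ^ 2 / (8 * C₃) * N := by
      rw [hM, hQ]; field_simp; ring
    rw [e2]
    exact mul_le_mul_of_nonneg_right (min_le_right _ _) hN0.le
  refine hGN.trans ?_
  have hsub : G ⊆ (Icc 1 N).filter (fun n : ℕ => n % q = a % q ∧
        c * K / Real.log N ≤ ((ks K n).card : ℝ)) := by
    intro n hn
    rw [hG, mem_filter] at hn
    have hn1 := hn.1
    unfold cls at hn1
    rw [mem_filter] at hn1
    rw [mem_filter]
    refine ⟨hn1.1, hn1.2, le_trans ?_ hn.2⟩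
    have e1 : M / (2 * N) = c₁ / (256 * q) * K / Real.log N := by
      rw [hM, hc₂]; field_simp; ring
    rw [e1]
    refine div_le_div_of_nonneg_right ?_ hlogN.le
    exact mul_le_mul_of_nonneg_right (min_le_left _ _) hK0.le
  exact_mod_cast Finset.card_le_card hsub

theorem hFin (hF : StFirst) (hP : StPair) (hA : StAvg) (hBu : Pool.Agent.Helper60.GP.StBump) :
    StFin := by
  intro θ hθ0 hθ1 q a hq
  obtain ⟨ω, hω, hJ, hsupp⟩ := hBu 1 one_pos
  set θ' : ℝ := (1 + θ) / 2 with hθ'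
  have hθ'1 : θ' < 1 := by rw [hθ']; linarith
  have hθθ' : θ < θ' := by rw [hθ']; linarith
  have hθ'0 : 0 < θ' := by linarith
  set β : ℝ := θ' / (1 + θ') with hβd
  have h1θ' : 0 < 1 + θ' := by linarith
  have hβ : 0 < β := by positivity
  have hβ2 : β < 1 / 2 := by
    rw [hβd, div_lt_div_iff₀ h1θ' (by norm_num)]
    linarith
  have h1β : 1 - β = 1 / (1 + θ') := by
    rw [hβd]; field_simp; ring
  have hβθ : 0 < β - (1 - β) * θ := by
    rw [h1β, hβd]
    have : θ' / (1 + θ') - 1 / (1 + θ') * θ = (θ' - θ) / (1 + θ') := by field_simp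
    rw [this]
    exact div_pos (by linarith) h1θ'
  obtain ⟨c₁, x₀, hc₁, hF2⟩ := hF ω hω hJ β hβ hβ2 q a hq
  obtain ⟨C₃, hC₃, hS⟩ := second hP hA
  have hqR : (1 : ℝ) ≤ q := by exact_mod_cast hq
  have hpow : ∀ s : ℝ, 0 < s → ∀ K : ℝ, ∀ᶠ x : ℝ in Filter.atTop, K ≤ x ^ s := fun s hs K =>
    (tendsto_rpow_atTop hs).eventually_ge_atTop K
  have hlogp : ∃ x₁ : ℝ, ∀ x : ℝ, x₁ ≤ x → 8 * √3 * Real.log x ≤ c₁ * x ^ (1 / 2 - β) := by
    have e1 := (isLittleO_log_rpow_atTop (r := 1 / 2 - β) (by linarith)).bound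
      (c := c₁ / (8 * √3)) (by positivity)
    rw [← Filter.eventually_atTop]
    filter_upwards [e1, Filter.eventually_ge_atTop (1 : ℝ)] with x hx hx1
    have hx0 : 0 < x := by linarith
    rw [Real.norm_of_nonneg (Real.log_nonneg hx1), Real.norm_of_nonneg (by positivity)] at hx
    calc 8 * √3 * Real.log x ≤ 8 * √3 * (c₁ / (8 * √3) * x ^ (1 / 2 - β)) :=
          mul_le_mul_of_nonneg_left hx (by positivity)
      _ = _ := by field_simp
  obtain ⟨x₁, hx₁⟩ := hlogp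
  have hev : ∀ᶠ y : ℝ in Filter.atTop, 24 ≤ y ∧ 8 * x₀ ≤ y ∧ 8 * x₁ ≤ y ∧
      16 * (q : ℝ) ≤ y ^ (1 - θ) ∧ 16 * (q : ℝ) ^ 2 ≤ y ^ (β - (1 - β) * θ) := by
    filter_upwards [Filter.eventually_ge_atTop (24 : ℝ), Filter.eventually_ge_atTop (8 * x₀),
      Filter.eventually_ge_atTop (8 * x₁), hpow (1 - θ) (by linarith) (16 * (q : ℝ)),
      hpow (β - (1 - β) * θ) hβθ (16 * (q : ℝ) ^ 2)] with y a1 a2 a3 a4 a5
    exact ⟨a1, a2, a3, a4, a5⟩
  obtain ⟨N₀, hN₀⟩ := Filter.eventually_atTop.1 (tendsto_natCast_atTop_atTop.eventually hev)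
  refine ⟨min (c₁ / (256 * q)) ((c₁ / (128 * q)) ^ 2 / (8 * C₃)), 4 * q,
    lt_min (by positivity) (by positivity), by positivity, N₀, fun N hN K hK1 hK2 => ?_⟩
  obtain ⟨a1, a2, a3, a4, a5⟩ := hN₀ N hN
  have hN0 : (0 : ℝ) < N := by linarith
  have hlog1 : 1 ≤ Real.log N := by
    rw [Real.le_log_iff_exp_le hN0]
    have := Real.exp_one_lt_d9
    linarith
  have hKq : 4 * q ≤ K := by
    have h1 : 4 * (q : ℝ) ≤ K := by
      calc 4 * (q : ℝ) = 4 * q * 1 := (mul_one _).symm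
        _ ≤ 4 * q * Real.log N := mul_le_mul_of_nonneg_left hlog1 (by positivity)
        _ ≤ K := hK1
    exact_mod_cast h1
  set B : ℕ := K / (2 * q) with hB
  have h2q : 0 < 2 * q := by omega
  have hB2 : 2 ≤ B := by
    rw [hB, Nat.le_div_iff_mul_le h2q]
    have h1 : 2 * (2 * q) = 4 * q := by ring
    rw [h1]
    exact hKq
  have hBK : 2 * q * B ≤ K := Nat.mul_div_le K (2 * q)
  have hKB : K < 2 * q * B + 2 * q := by
    have h1 := Nat.div_add_mod K (2 * q)
    have h2 := Nat.mod_lt K h2q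
    rw [← hB] at h1
    omega
  have hBR : (1 : ℝ) ≤ B := by exact_mod_cast (by omega : 1 ≤ B)
  have hBKR : 2 * (q : ℝ) * B ≤ K := by exact_mod_cast hBK
  have hKBR : (K : ℝ) ≤ 4 * q * B := by
    have h1 : (K : ℝ) < 2 * q * B + 2 * q := by exact_mod_cast hKB
    have h2 : 2 * (q : ℝ) * 1 ≤ 2 * q * B := mul_le_mul_of_nonneg_left hBR (by positivity)
    linarith
  have hBK' : (B : ℝ) ≤ K := by
    calc (B : ℝ) = 1 * B := (one_mul _).symm
      _ ≤ 2 * (q : ℝ) * B := mul_le_mul_of_nonneg_right (by linarith) (by linarith)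
      _ ≤ K := hBKR
  have hBθ : (B : ℝ) ≤ (N : ℝ) ^ θ := hBK'.trans hK2
  set x : ℝ := (N * B / 8 : ℝ) with hx
  have hNx : (N : ℝ) / 8 ≤ x := by
    rw [hx]
    have h1 : (N : ℝ) * 1 ≤ N * B := mul_le_mul_of_nonneg_left hBR hN0.le
    linarith
  have hx0 : 0 < x := by linarith
  have hxβ : 2 * (q : ℝ) ^ 2 * B ≤ x ^ β := by
    have e1 : x ^ β = (N : ℝ) ^ β * (B : ℝ) ^ β / (8 : ℝ) ^ β := by
      rw [hx, Real.div_rpow (by positivity) (by norm_num), Real.mul_rpow hN0.le (by linarith)]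
    have e2 : (8 : ℝ) ^ β ≤ 8 := by
      calc (8 : ℝ) ^ β ≤ 8 ^ (1 : ℝ) :=
            Real.rpow_le_rpow_of_exponent_le (by norm_num) (by linarith)
        _ = 8 := Real.rpow_one 8
    have e3 : (B : ℝ) = (B : ℝ) ^ (1 - β) * (B : ℝ) ^ β := by
      rw [← Real.rpow_add (by linarith)]
      rw [show 1 - β + β = 1 by ring, Real.rpow_one]
    have e4 : (B : ℝ) ^ (1 - β) ≤ (N : ℝ) ^ ((1 - β) * θ) := by
      calc (B : ℝ) ^ (1 - β) ≤ ((N : ℝ) ^ θ) ^ (1 - β) :=
            Real.rpow_le_rpow (by linarith) hBθ (by linarith)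
        _ = (N : ℝ) ^ ((1 - β) * θ) := by
            rw [← Real.rpow_mul hN0.le]
            congr 1
            ring
    have e5 : (N : ℝ) ^ ((1 - β) * θ) * (N : ℝ) ^ (β - (1 - β) * θ) = (N : ℝ) ^ β := by
      rw [← Real.rpow_add hN0]
      congr 1
      ring
    have e6 : 16 * (q : ℝ) ^ 2 * (B : ℝ) ^ (1 - β) ≤ (N : ℝ) ^ β := by
      rw [← e5, mul_comm]
      exact mul_le_mul e4 a5 (by positivity) (by positivity)
    have e7 : (0 : ℝ) < (B : ℝ) ^ β := Real.rpow_pos_of_pos (by linarith) _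
    rw [e1, le_div_iff₀ (by positivity)]
    calc 2 * (q : ℝ) ^ 2 * B * 8 ^ β ≤ 2 * (q : ℝ) ^ 2 * B * 8 :=
          mul_le_mul_of_nonneg_left e2 (by positivity)
      _ = 16 * (q : ℝ) ^ 2 * ((B : ℝ) ^ (1 - β) * (B : ℝ) ^ β) := by rw [← e3]; ring
      _ = 16 * (q : ℝ) ^ 2 * (B : ℝ) ^ (1 - β) * (B : ℝ) ^ β := by ring
      _ ≤ (N : ℝ) ^ β * (B : ℝ) ^ β := mul_le_mul_of_nonneg_right e6 e7.le
  have hFx := hF2 x (by linarith) B (by omega) (by
    push_cast
    calc (q : ℝ) ^ 2 * (2 * B) = 2 * (q : ℝ) ^ 2 * B := by ring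
      _ ≤ x ^ β := hxβ)
  have hSx := hS N K (by
    have h1 : (2 : ℝ) ≤ N := by linarith
    exact_mod_cast h1) (by omega)
  refine core ω hω hsupp hq hβ2 hc₁ hC₃ hSx hFx (by omega) hBK hKBR ?_ ?_ ?_ ?_ ?_ ?_
  · calc Real.log N = 1 * Real.log N := (one_mul _).symm
      _ ≤ 4 * q * Real.log N := mul_le_mul_of_nonneg_right (by linarith) (by linarith)
      _ ≤ K := hK1
  · have h1 : (8 : ℝ) ≤ N := by linarith
    exact_mod_cast h1
  · have h1 : ((16 * q * K : ℕ) : ℝ) ≤ N := by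
      push_cast
      have e1 : (N : ℝ) ^ θ * (N : ℝ) ^ (1 - θ) = N := by
        rw [← Real.rpow_add hN0]
        rw [show θ + (1 - θ) = 1 by ring, Real.rpow_one]
      calc 16 * (q : ℝ) * K ≤ (N : ℝ) ^ (1 - θ) * (N : ℝ) ^ θ :=
            mul_le_mul a4 hK2 (Nat.cast_nonneg _) (by positivity)
        _ = N := by rw [mul_comm]; exact e1
    exact_mod_cast h1
  · refine le_trans ?_ hxβ
    have h1 : (1 : ℝ) ≤ 2 * (q : ℝ) ^ 2 := by nlinarith
    calc (B : ℝ) = 1 * B := (one_mul _).symm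
      _ ≤ 2 * (q : ℝ) ^ 2 * B := mul_le_mul_of_nonneg_right h1 (by linarith)
  · exact hx₁ x (by linarith)
  · linarith

end Pool.Agent.Helper93.KN
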