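import Pool.Agent.Helper93.KN.St

/-!
# Project KN, module UP: the upper bound
-/

set_option autoImplicit false

noncomputable section

namespace Pool.Agent.Helper93.KN

open Finset

theorem hUp (hP : StPair) (hA : StAvg) : StUp := by
  classical
  obtain ⟨C₁, hC₁, hP⟩ := hP
  obtain ⟨C₂, hC₂, hA⟩ := hA
  refine ⟨C₁ * C₂, by positivity, fun N K hN hK => ?_⟩
  have hNR : (2 : ℝ) ≤ N := by exact_mod_cast hN
  have hlog : 0 < Real.log N := Real.log_pos (by linarith)
  have h1 : ((Icc 1 N).filter (fun n : ℕ => (ks K n).Nonempty)).card ≤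
      ∑ k ∈ Icc 1 K, ((Icc 1 N).filter (fun n : ℕ => (k * (n - k) - 1).Prime)).card := by
    refine le_trans (Finset.card_le_card ?_) Finset.card_biUnion_le
    intro n hn
    rw [mem_filter] at hn
    obtain ⟨hn1, k, hk⟩ := hn
    unfold ks at hk
    rw [mem_filter] at hk
    rw [mem_biUnion]
    exact ⟨k, hk.1, mem_filter.2 ⟨hn1, hk.2.2⟩⟩
  have h2 : (((Icc 1 N).filter (fun n : ℕ => (ks K n).Nonempty)).card : ℝ) ≤
      ∑ k ∈ Icc 1 K, (((Icc 1 N).filter (fun n : ℕ => (k * (n - k) - 1).Prime)).card : ℝ) := by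
    exact_mod_cast h1
  refine h2.trans ?_
  calc ∑ k ∈ Icc 1 K, (((Icc 1 N).filter (fun n : ℕ => (k * (n - k) - 1).Prime)).card : ℝ) ≤
        ∑ k ∈ Icc 1 K, C₁ * (N / Real.log N) * ff k :=
        Finset.sum_le_sum fun k hk => (hP N k k hN (mem_Icc.1 hk).1 (mem_Icc.1 hk).1).1
    _ = C₁ * (N / Real.log N) * ∑ k ∈ Icc 1 K, ff k := by rw [Finset.mul_sum]
    _ ≤ C₁ * (N / Real.log N) * (C₂ * K) :=
        mul_le_mul_of_nonneg_left (hA K hK).1 (by positivity)
    _ = _ := by ring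

end Pool.Agent.Helper93.KN
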