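import Pool.Agent.Helper60.GP.All
import Pool.Agent.Helper18.TR.Final
import Pool.Agent.Helper15.AB.M_MT
import Pool.Agent.Helper10.KN.M_FIRST
import Pool.Agent.Helper86.KN.M_PAIR
import Pool.Agent.Helper36.KN.M_AVG
import Pool.Agent.Helper93.KN.M_FIN
import Pool.Agent.Helper93.KN.M_UP
import Pool.Agent.Helper66.KN.M_SIEVE

/-!
# Project KN: assembly
-/

namespace Pool.Agent.Helper93.KN

open Pool.Agent

theorem pPair : StPair := Helper86.KN.hPair (Helper66.KN.hSieve Helper18.TR.fl Helper15.AB.hMT)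

theorem pFin : StFin :=
  hFin (Helper10.KN.hFirst Helper60.GP.pB3 Helper60.GP.pB4) pPair Helper36.KN.hAvg Helper60.GP.pB5

theorem pUp : StUp := hUp pPair Helper36.KN.hAvg

end Pool.Agent.Helper93.KN
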