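import Pool.Agent.Helper60.GP.St
import Pool.Agent.Helper18.TR.St
import Pool.Agent.Helper15.AB.StMid

/-!
# Project KN (MP_77e955_nt): `k (n - k) - 1` prime with small `k` for a positive proportion of the `n` in every
arithmetic progression.  Statements of the modules, with proofs.
-/

set_option autoImplicit false

noncomputable section

namespace Pool.Agent.Helper93.KN

open Finset ArithmeticFunction
open Pool.Agent.Helper60.GP (IsB JJ II Err)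

/-- the numbers `1 ≤ k ≤ K`, `k ≤ n / 2`, with `k (n - k) - 1` prime -/
def ks (K n : ℕ) : Finset ℕ := (Icc 1 K).filter (fun k => 2 * k ≤ n ∧ (k * (n - k) - 1).Prime)

/-- `∏_{l ∣ m} (1 + 4 / l)` -/
def ff (m : ℕ) : ℝ := ∏ l ∈ m.primeFactors, (1 + 4 / (l : ℝ))

/-- for the primes not dividing this number the two roots `b + 1 / b` and `c + 1 / c` exist and are different -/
def EE (b c : ℕ) : ℕ := b * c * ((b : ℤ) - c).natAbs * (b * c - 1)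

/-- MODULE FIRST (assume `hBV : Pool.Agent.Helper60.GP.StBVc`, `hPNT : Pool.Agent.Helper60.GP.StPNT`).
Put `Q_b = q ^ 2 b`, residue class `v_b = a q b - 1`.  It is coprime to `Q_b`: a prime dividing both divides `q b` or
(`q`, hence `q b`), so it divides `1`.  The inner sum is at least `Th ω x / φ(Q_b) - Err ω x Q_b v_b` (by definition of `Err`), and
`φ(Q_b) ≤ Q_b ≤ 2 q ^ 2 B`, there are `B` values of `b`, `Th ω x ≥ 0`, so the main terms give at least `Th ω x / (2 q ^ 2)`,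
and `Th ω x ≥ JJ ω * x / 2` for large `x`.  The errors: let `cl Q = a (Q / q) - 1` if this is coprime to `Q`, and
`cl Q = 1` otherwise; `b ↦ q ^ 2 b` is injective with values in `Icc 1 ⌊x ^ β⌋₊`, so the sum of the errors is at most
`∑_{Q ≤ x ^ β} Err ω x Q (cl Q) ≤ x / log x` (`hBV` with `A = 1`). -/
def StFirst : Prop := ∀ ω : ℝ → ℝ, IsB ω → 0 < JJ ω → ∀ β : ℝ, 0 < β → β < 1 / 2 →
  ∀ q a : ℕ, 1 ≤ q → ∃ c x₀ : ℝ, 0 < c ∧ ∀ x : ℝ, x₀ ≤ x → ∀ B : ℕ, 1 ≤ B →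
    ((q ^ 2 * (2 * B) : ℕ) : ℝ) ≤ x ^ β →
    c * x ≤ ∑ b ∈ Ioc B (2 * B), ∑ n ∈ (II x).filter (fun n : ℕ =>
      ((q ^ 2 * b : ℕ) : ℤ) ∣ (n : ℤ) - ((a * (q * b) : ℕ) - 1 : ℤ)), Λ n * ω (Real.log (n / x))

open Classical in
/-- MODULE SIEVE (assume `hFL : Pool.Agent.Helper18.TR.StFL`, `hM : Pool.Agent.Helper15.AB.StMT`).  Model:
`Pool.Agent.Helper9.SU.M_ALL` (general lemma `cntT_ALL` there: count of an interval with residue conditions).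
`StFL` with `κ = r`, `ε = 1` gives `B₀`.  `w = ⌊N ^ δ⌋`, `δ = 1 / (4 B₀ + 8)`; `Q` the primes `5 ≤ l ≤ w`,
`g l = (S l).card / l ≤ r / l ≤ 1 / 2`, `A = Icc 1 N = Ioc 0 (0 + N)`, `E l n` the condition `n % l ∈ S l`;
for `T ⊆ Q`, `∏ T ≤ w ^ B₀`: error at most `∏_{l ∈ T} (S l).card ≤ ∏ T ≤ w ^ B₀ =: R`.
So the count is at most `2 N ∏_{l ∈ Q} (1 - g l) + w ^ (2 B₀)`.
`∏ (1 - g l) ≤ exp (- ∑ g l) ≤ exp (- ∑_{l ∈ Q} r / l) ∏_{l ∈ Q, l ∣ E} exp (r / l)`, `exp (r / l) ≤ 1 + 4 / l` (as `r / l ≤ 2 / 5`,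
`exp t ≤ 1 + 2 t` for `0 ≤ t ≤ 1`), the product over `l ∈ Q`, `l ∣ E` is at most `ff E`.  Mertens: `exp (- ∑_{l ∈ Q} r / l) ≤ C / (log w) ^ r
≤ C' / (log N) ^ r` (`log w ≥ (δ / 2) log N` for large `N`).  `w ^ (2 B₀) ≤ N ^ (1 / 2) ≤ C N / (log N) ^ r`, `ff E ≥ 1`.
Small `N` (`w < 5`): the count is at most `N ≤ C N / (log N) ^ r` with `C` large. -/
def StSieve : Prop := ∀ r : ℕ, 1 ≤ r → r ≤ 2 → ∃ C δ : ℝ, 0 < C ∧ 0 < δ ∧ δ ≤ 1 / 4 ∧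
  ∀ N : ℕ, 2 ≤ N → ∀ (S : ℕ → Finset ℕ) (E : ℕ), E ≠ 0 →
    (∀ l : ℕ, l.Prime → 5 ≤ l → (∀ s ∈ S l, s < l) ∧ (S l).card ≤ r ∧ (¬ l ∣ E → (S l).card = r)) →
    (((Icc 1 N).filter (fun n : ℕ => ∀ l : ℕ, l.Prime → 5 ≤ l → (l : ℝ) ≤ (N : ℝ) ^ δ →
      n % l ∉ S l)).card : ℝ) ≤ C * (N / Real.log N ^ r) * ff E

/-- MODULE PAIR (assume `hS : StSieve`).  (1) `r = 1`: `S l` the classes `s < l` with `l ∣ b (s - b) - 1` (in `ℤ`):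
none if `l ∣ b`, exactly one otherwise (`s ≡ b + 1 / b`).  If `b (n - b) - 1` is a prime `P` and `n % l ∈ S l` for a prime `l ≤ N ^ δ`
then `l ∣ P`, so `P = l ≤ N ^ δ`; there are at most `N ^ δ` such `n` (`n ↦ b (n - b) - 1` is injective where this is positive; or
`n - b ≤ P + 1 ≤ N ^ δ + 1`), and `N ^ δ + 1 ≤ 2 N ^ (1 / 4) + 1 ≤ C N / log N`, `ff ≥ 1`.
(2) `r = 2`: `S l` the classes `s < l` with `l ∣ b (s - b) - 1` or `l ∣ c (s - c) - 1`: at most two, and exactly two if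
`l ∤ EE b c` (`b + 1 / b = c + 1 / c` modulo `l` is equivalent to `(b - c) (b c - 1) = 0`).  `EE b c ≠ 0` for `b ≠ c`, `b, c ≥ 1`.
The rest as in (1).  (If `n ≤ b` then `b (n - b) - 1 = 0` in `ℕ` is not prime.) -/
def StPair : Prop := ∃ C : ℝ, 0 < C ∧ ∀ N b c : ℕ, 2 ≤ N → 1 ≤ b → 1 ≤ c →
  (((Icc 1 N).filter (fun n : ℕ => (b * (n - b) - 1).Prime)).card : ℝ) ≤
    C * (N / Real.log N) * ff b ∧
  (b ≠ c → (((Icc 1 N).filter (fun n : ℕ => (b * (n - b) - 1).Prime ∧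
    (c * (n - c) - 1).Prime)).card : ℝ) ≤ C * (N / Real.log N ^ 2) * ff (EE b c))

/-- MODULE AVG (no hypothesis).  `ff (m m') ≤ ff m * ff m'`, so `ff (EE b c) ≤ (ff b ^ 4 + ff c ^ 4 + ff |b - c| ^ 4 + ff (b c - 1) ^ 4) / 4`
(AM-GM) and `ff ≤ ff ^ 4`.  `ff m ^ 4 ≤ ∏_{l ∣ m} (1 + 5 ^ 4 / l) ≤ C ∏_{l ∣ m} (1 + 1 / √l)` (as `(1 + 4 t) ^ 4 ≤ 1 + 5 ^ 4 t` for
`0 ≤ t ≤ 1`, and `5 ^ 4 / l ≤ 1 / √l` for `l ≥ 5 ^ 8`; the primes below `5 ^ 8` contribute a constant factor) and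
`∏_{l ∣ m} (1 + 1 / √l) ≤ ∑_{d ∣ m} 1 / √d =: D(m)` (expand the product, `Finset.prod_one_add`; `T ↦ ∏ T` is injective).
`∑_{b ≤ B} D(b) ≤ ∑_{d ≤ B} (B / d) / √d ≤ C B`; the same for `c`, and for `|b - c|` (fix `c`, each value is taken at most twice).
For `b c - 1 < B ^ 2`: `#{(b, c) : d ∣ b c - 1} ≤ B (B / d + 1)` (for given `b` the `c` are in at most one class modulo `d`), so the
sum of `D(b c - 1)` is at most `∑_{d ≤ B ^ 2} (B ^ 2 / d + B) / √d ≤ C B ^ 2 + B * 2 √(B ^ 2)`. -/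
def StAvg : Prop := ∃ C : ℝ, 0 < C ∧ ∀ B : ℕ, 1 ≤ B → ∑ b ∈ Icc 1 B, ff b ≤ C * B ∧
  ∑ v ∈ (Icc 1 B ×ˢ Icc 1 B).filter (fun v : ℕ × ℕ => v.1 ≠ v.2), ff (EE v.1 v.2) ≤ C * B ^ 2

/-- MODULE FIN (assume `hF : StFirst`, `hP : StPair`, `hA : StAvg`, `hBu : Pool.Agent.Helper60.GP.StBump`).
`θ < θ' < 1`, `β = θ' / (1 + θ')`, `ω` a bump (`L = 1`), `B = ⌊K / (2 q)⌋`, `x = N B / 8`.  For `b ∈ Ioc B (2 B)` and a prime `p` in the class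
of `StFirst` (`x < p ≤ 3 x`) put `k = q b`, `p + 1 = k m`, `m ≡ a (mod q)`, `n = k + m ≤ N`, `k (n - k) - 1 = p`, `k ≤ K`, `2 k ≤ n`.
With `F(n) = #{b : (q b) (n - q b) - 1 prime}` the first moment is `≥ c N B / log N` (proper prime powers are negligible), the second moment is
`≤ C (N B ^ 2 / log N ^ 2 + N B / log N) ≤ C' N B ^ 2 / log N ^ 2` as `B ≥ log N`.  Cauchy-Schwarz. -/
def StFin : Prop := ∀ θ : ℝ, 0 < θ → θ < 1 → ∀ q a : ℕ, 1 ≤ q → ∃ c C : ℝ, 0 < c ∧ 0 < C ∧ ∃ N₀ : ℕ,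
  ∀ N : ℕ, N₀ ≤ N → ∀ K : ℕ, C * Real.log N ≤ K → (K : ℝ) ≤ (N : ℝ) ^ θ →
    c * N ≤ (((Icc 1 N).filter (fun n : ℕ => n % q = a % q ∧
      c * K / Real.log N ≤ ((ks K n).card : ℝ))).card : ℝ)

/-- MODULE UP (assume `hP : StPair`, `hA : StAvg`): sum over `k ≤ K`. -/
def StUp : Prop := ∃ C : ℝ, 0 < C ∧ ∀ N K : ℕ, 2 ≤ N → 1 ≤ K →
    (((Icc 1 N).filter (fun n : ℕ => (ks K n).Nonempty)).card : ℝ) ≤ C * K / Real.log N * N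

end Pool.Agent.Helper93.KN
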